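import Mathlib

/-!
# Oriented even cycles of net length two: definitions and statements of the steps (MP_061df2_co)

Words: `d : Fin k → Bool` (`true` = forward letter F, `false` = backward letter B), `sg` sign,
`ht d n` = height after `n` letters. `PW R d f`: `f : Fin k → V` is a closed walk of `R` with pattern `d`.
-/

set_option autoImplicit false

namespace Pool.Agent.W848.N2

open Finset

/-- closed walk following the pattern `d` (same text as `Pool.Agent.W163.CF.PW`) -/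
def PW {α : Type} {k : ℕ} (R : α → α → Prop) (d : Fin k → Bool) (f : Fin k → α) : Prop :=
  ∀ i j : Fin k, j.val = (i.val + 1) % k →
    (d i = true → R (f i) (f j)) ∧ (d i = false → R (f j) (f i))

/-- sign of a letter -/
def sg (b : Bool) : ℤ := if b then 1 else -1

/-- height after `n` letters -/
def ht {k : ℕ} (d : Fin k → Bool) (n : ℕ) : ℤ := ∑ i : Fin k, if i.val < n then sg (d i) else 0

/-- both semidegrees are at least half the number of vertices (loops allowed) -/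
def Deg {V : Type} [Fintype V] (R : V → V → Prop) : Prop :=
  (∀ a, Fintype.card V ≤ 2 * {b | R a b}.ncard) ∧ (∀ a, Fintype.card V ≤ 2 * {b | R b a}.ncard)

/-- infinite backward walk from `x`, all weights at most `q`, no two consecutive vertices outside `L` -/
def Back {V : Type} (R : V → V → Prop) (L : Set V) (w : V → ℝ) (q : ℝ) (x : V) : Prop :=
  ∃ z : ℕ → V, z 0 = x ∧ ∀ n, R (z (n + 1)) (z n) ∧ w (z n) ≤ q ∧ (z n ∈ L ∨ z (n + 1) ∈ L)

/-- the claim for a pattern: if all closed `d`-walks have nonnegative weight, the total weight is nonnegative -/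
def Pos (k : ℕ) (d : Fin k → Bool) : Prop :=
  ∀ (V : Type) [Fintype V] [Nonempty V] (R : V → V → Prop), Deg R → ∀ w : V → ℝ,
    (∀ f : Fin k → V, PW R d f → 0 ≤ ∑ i, w (f i)) → 0 ≤ ∑ v, w v

/-- ROT. A word of net length 2 has a rotation `d'` with all heights `≤ 1` before the end.
Proof: let `p : Fin k` maximise `(k:ℤ) * ht d p.val - 2 * p.val`; `d' i = d ⟨(i.val + p.val) % k, _⟩`.
For `j < k`: if `p + j < k` then `ht d' j = ht d (p+j) - ht d p`, and `k * (ht d (p+j) - ht d p) ≤ 2 j < 2 k`;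
if `p + j ≥ k` then `ht d' j = ht d (p + j - k) + 2 - ht d p` and `k * (that) ≤ 2 (p+j-k) - 2 p + 2 k = 2 j`.
So `k * ht d' j ≤ 2 j < 2 k`, `ht d' j ≤ 1`. (`ht d (n+1) = ht d n + sg (d n)` gives the two formulas by
induction on `j`.) For a closed `d'`-walk `f'` put `f i = f' ⟨(i.val + k - p.val) % k, _⟩`. -/
def S_ROT : Prop := ∀ k : ℕ, 0 < k → ∀ d : Fin k → Bool, ∑ i, sg (d i) = 2 →
  ∃ d' : Fin k → Bool, (∀ j, j < k → ht d' j ≤ 1) ∧ ∑ i, sg (d' i) = 2 ∧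
    ∀ (V : Type) (R : V → V → Prop) (f' : Fin k → V), PW R d' f' →
      ∃ f : Fin k → V, PW R d f ∧ ∀ y : V → ℝ, ∑ i, y (f i) = ∑ i, y (f' i)

/-- REV. Reversed word in the converse relation. Proof: `d' j = d (k-1-j)`, `f i = f' ((k - i) % k)`. -/
def S_REV : Prop := ∀ k : ℕ, 0 < k → ∀ d : Fin k → Bool,
  ∃ d' : Fin k → Bool, ∑ i, sg (d' i) = ∑ i, sg (d i) ∧
    ∀ (V : Type) (R : V → V → Prop) (f' : Fin k → V), PW (fun a b => R b a) d' f' →
      ∃ f : Fin k → V, PW R d f ∧ ∀ y : V → ℝ, ∑ i, y (f i) = ∑ i, y (f' i)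

/-- BACK. Walks through the light set `L`.
Proof. `N⁺(v)` has more elements than `{q < w}` (as `2 (|L|-1) < card V ≤ 2 |N⁺(v)|`), so every `v` has an
out-neighbour and an in-neighbour of weight `≤ q`. If every `x ∈ L` has an in-neighbour in `L`: iterate (all
`z n ∈ L`), first alternative. If every `x ∈ L` has an out-neighbour in `L`: second alternative. Otherwise
there are `x0 ∈ L` without in-neighbour in `L` and `y0 ∈ L` without out-neighbour in `L`. Claim: every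
`x ∈ L` has an in-neighbour `v` with `v ∈ L`, or with `w v ≤ q` and an in-neighbour of `v` in `L`. If `x` has
no in-neighbour in `L` then `N⁻(x)` and `N⁺(y0)` are subsets of `Lᶜ`, so
`|N⁻(x) ∩ N⁺(y0)| ≥ |N⁻(x)| + |N⁺(y0)| - (card V - |L|) ≥ |L| > |{q < w}|`; take `v` in the intersection with
`w v ≤ q` (`y0 → v → x`). Now iterate with the state property
`P v := v ∈ L ∨ (w v ≤ q ∧ ∃ y ∈ L, R y v)`: from `v ∈ L` go to the `v` of the claim, from `v ∉ L` go to `y`. -/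
def S_BACK : Prop := ∀ (V : Type) [Fintype V] (R : V → V → Prop), Deg R →
  ∀ (w : V → ℝ) (L : Set V) (q : ℝ), (∀ x ∈ L, w x ≤ q) → 2 * L.ncard ≤ Fintype.card V + 1 →
    {v | q < w v}.ncard < L.ncard →
    (∀ v, ∃ y, R v y ∧ w y ≤ q) ∧ (∀ v, ∃ y, R y v ∧ w y ≤ q) ∧
    ((∀ x ∈ L, Back R L w q x) ∨ (∀ x ∈ L, Back (fun a b => R b a) L w q x))

/-- DIG. Closed walk through a digon `x ↔ s`. Write `k = 2m`, `h j = ht d j`: `h 0 = 0`, `h k = 2`, hence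
`h (k-1) = 1`, `h (k-2) = 0`, letters `k-2, k-1` are F (`h j` has the parity of `j`). Let `z'` be the walk
`z' a = z (-a)` for `a ≤ 0` (the `Back` walk, `z' 0 = x`), `z' 1 = y` the out-neighbour of weight `≤ q`; so
`R (z' a) (z' (a+1))` for `a ≤ 0`, `w (z' a) ≤ q` for `a ≤ 1`, and of two consecutive `z' a, z' (a+1)`, `a ≤ 0`,
one is in `L`.
Case A: some even `j0`, `2 ≤ j0 ≤ k-4`, has `h j0 = 0`. Take `f j = z' (h j)` for `j ≤ k-2`, `f (k-1) = s`.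
Weight: `w s` + position 0 (`= x`) + the pairs `(1,2), (3,4), …, (k-3,k-2)`; the pairs with second member
`j0` and `k-2` weigh at most `w x + q`, the other `m-3` pairs at most `t + q` (one member in `L`).
Case B: no such `j0`. Then `h j ≤ -2` for even `2 ≤ j ≤ k-4` (even, `≤ 1`, `≠ 0`), so `h j ≤ -1` for `1 ≤ j ≤ k-3`
and `h 1 = -1`, `h (k-3) = -1`. Take `f (k-2) = s`, `f (k-1) = x`, `f j = z' (h j + 1)` for `j ≤ k-3`
(`f 0 = z' 1`, `f 1 = x`, `f (k-3) = x`). Weight: `w s` + position `k-1` (`= x`) + pairs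
`(0,1), (2,3), …, (k-4,k-3)`; the pairs `(0,1)` and `(k-4,k-3)` contain `x`. -/
def S_DIG : Prop := ∀ m : ℕ, 3 ≤ m → ∀ d : Fin (2 * m) → Bool, (∀ j, j < 2 * m → ht d j ≤ 1) →
  ∑ i, sg (d i) = 2 →
  ∀ (V : Type) (R : V → V → Prop) (w : V → ℝ) (L : Set V) (t q : ℝ), (∀ v ∈ L, w v ≤ t) → t ≤ q →
  ∀ x s : V, x ∈ L → Back R L w q x → (∃ y, R x y ∧ w y ≤ q) → R x s → R s x →
    ∃ f : Fin (2 * m) → V, PW R d f ∧
      ∑ i, w (f i) ≤ w s + 3 * w x + ((m : ℝ) - 3) * t + ((m : ℝ) - 1) * q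

/-- QUAD. Closed walk through a transitive 4-cycle `a → b → c → e`, `a → e` of `L`. Notation as in `S_DIG`
(`z'` the backward walk of the base vertex, continued by one out-neighbour of weight `≤ q` at height 1).
(i) `h (k-4) = 0`, `h (k-3) = 1` (last letters F B F F): base `c`; `f (k-4) = c, f (k-3) = e, f (k-2) = a,
f (k-1) = b`, `f j = z' (h j)` for `j ≤ k-4`.
(i') `h (k-4) = 0`, `h (k-3) = -1` (last letters B F F F): base `e`; `f (k-4) = e, f (k-3) = a, f (k-2) = b,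
f (k-1) = c`, `f j = z' (h j)` for `j ≤ k-4`.
(ii) `h (k-4) = -2` (last letters F F F F) and `d 0 = B`: base `a`, with `z' 1 = b`, `z' 2 = c` (arcs
`R (z' a) (z' (a+1))` now for `a ≤ 1`); `f (k-3) = a, f (k-2) = b, f (k-1) = c, f 0 = e`, `f j = z' (h j + 1)` for
`1 ≤ j ≤ k-3`.
(iii) `h (k-4) = -2` and `d 0 = F` (so `h 1 = 1`, `h 2 = 0`): base `a`, `z' 1 = b`; `f (k-2) = a, f (k-1) = b, f 0 = c,
f 1 = e`, `f j = z' (h j)` for `2 ≤ j ≤ k-2`.
In all cases every pair `(2i, 2i+1)` of positions has a member in `L` and all weights are `≤ q`, so the weight is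
`≤ m (t + q)`. -/
def S_QUAD : Prop := ∀ m : ℕ, 3 ≤ m → ∀ d : Fin (2 * m) → Bool, (∀ j, j < 2 * m → ht d j ≤ 1) →
  ∑ i, sg (d i) = 2 →
  ∀ (V : Type) (R : V → V → Prop) (w : V → ℝ) (L : Set V) (t q : ℝ), (∀ v ∈ L, w v ≤ t) → t ≤ q →
  (∀ x ∈ L, Back R L w q x) → (∀ v, ∃ y, R v y ∧ w y ≤ q) →
  ∀ a b c e : V, a ∈ L → b ∈ L → c ∈ L → e ∈ L → R a b → R b c → R c e → R a e →
    ∃ f : Fin (2 * m) → V, PW R d f ∧ ∑ i, w (f i) ≤ (m : ℝ) * (t + q)

/-- TOUR. Four pairwise adjacent vertices contain `a → b → c → e`, `a → e` (64 cases). -/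
def S_TOUR : Prop := ∀ (V : Type) (R : V → V → Prop) (v : Fin 4 → V),
  (∀ i j, i ≠ j → R (v i) (v j) ∨ R (v j) (v i)) →
  ∃ a b c e : Fin 4, R (v a) (v b) ∧ R (v b) (v c) ∧ R (v c) (v e) ∧ R (v a) (v e)

/-- K4. Proof: `|N⁺(x) ∪ N⁻(x)| = |N⁺(x)| + |N⁻(x)| - |N⁺(x) ∩ N⁻(x)| ≥ card V - |D(x)|`, so at most `|D(x)|`
vertices are adjacent to `x` in no direction (`D(x) = {s | R x s ∧ R s x}`). Take `v0 = x` of the first
hypothesis; at least `|J| - g > 2g` vertices of `J` are adjacent to `v0`; take `v1` among them (it has a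
neighbour in `J`, so `|D(v1)| ≤ g`), `v2` in `J` adjacent to both, `v3` in `J` adjacent to all three (vertices may
coincide if there are loops; this does no harm). -/
def S_K4 : Prop := ∀ (V : Type) [Fintype V] (R : V → V → Prop), Deg R → ∀ (J : Set V) (g : ℕ),
  (∃ x ∈ J, {s | R x s ∧ R s x}.ncard ≤ g) →
  (∀ x ∈ J, (∃ y ∈ J, R x y ∨ R y x) → {s | R x s ∧ R s x}.ncard ≤ g) →
  3 * g < J.ncard →
  ∃ v : Fin 4 → V, (∀ i, v i ∈ J) ∧ ∀ i j, i ≠ j → R (v i) (v j) ∨ R (v j) (v i)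

/-- SUM. Put `b i = a (n-1-i)` (nonincreasing). For `ℓ` with `a (ℓ-1) + a (n-ℓ) < 0`, `t = a (ℓ-1)`,
`q = a (n-ℓ) = b (ℓ-1)`: `∑_{j<ℓ} b (j/3) ≥ -3 ∑_{j<ℓ} a j - ℓ ((m-3) t + (m-1) q)`, and with
`c i = b i - q ≥ 0` (`i < ℓ`): `∑_{j<ℓ} c (j/3) ≤ ∑_{j<3ℓ} c (j/3) = 3 ∑_{i<ℓ} c i` (induction on `ℓ`). So
`3 ∑_{i<ℓ} (a i + b i) ≥ -ℓ ((m-3) t + (m-1) q) + 2 ℓ q = -ℓ (m-3) (t+q) ≥ 0`.
By induction on `ℓ`, `S ℓ = ∑_{i<ℓ} (a i + b i) ≥ 0` for all `ℓ` with `2 ℓ ≤ n + 1` (if `a (ℓ-1) + b (ℓ-1) ≥ 0` use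
`S (ℓ-1)`, otherwise the above). For `n = 2r`: `∑ a = S r`. For `n = 2r+1`: `∑ a = S r + a r = S (r+1) - a r`;
if `a r ≥ 0` use the first, otherwise the second. -/
def S_SUM : Prop := ∀ (n : ℕ) (a : ℕ → ℝ) (m : ℝ), 3 ≤ m → (∀ i j, i ≤ j → j < n → a i ≤ a j) →
  (∀ ℓ, 0 < ℓ → 2 * ℓ ≤ n + 1 → a (ℓ - 1) + a (n - ℓ) < 0 →
    ∀ j, j < ℓ → -3 * a j - (m - 3) * a (ℓ - 1) - (m - 1) * a (n - ℓ) ≤ a (n - 1 - j / 3)) →
  0 ≤ ∑ i ∈ range n, a i

/-- FC4. The case `k = 4`. By `S_ROT` (hypothesis) one may assume `ht d j ≤ 1` for `j < 4`, so `d` is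
`F B F F` or `B F F F` (check `d = ![true,false,true,true]` or `![false,true,true,true]`); closed `d`-walks are
`(c,e,a,b)` resp. `(e,a,b,c)` with `a → b → c → e`, `a → e`.
Sort: `u : Fin n ≃ V`, `a` sorted weights, `b i = a (n-1-i)`, `x0` a vertex of minimal weight `-c`, `c > 0` (otherwise
trivial). (1) If `R x s, R s x` and `u` is a neighbour of `x` (either direction) then
`0 ≤ w s + w u + 2 w x` (walk `(u,x,s,x)` if `u → x`, `(x,s,x,u)` if `x → u`). (2) `α` = least weight of a neighbour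
of `x0`, `p = #{w < α}`. With `x = x0`: every `s ∈ D(x0)` has `w s ≥ max(c, 2c - α)`. All vertices of weight `< α`
are non-neighbours of `x0`, so `p ≤ |D(x0)| ≤ #{w ≥ max(c, 2c-α)}` (see `S_K4`).
If `α ≥ 0`: `#{w<0} ≤ p ≤ #{w ≥ c}` and all weights are `≥ -c`: done.
If `α < 0` (`α ≥ -c`): for `t ∈ {weights in [α,0)}` the set `J = {w ≤ t}` contains `x0` and a neighbour of it, every
`x ∈ J` with a neighbour in `J` has `D(x) ⊆ {w ≥ -3t}`; by `S_K4`, `S_TOUR` and (K4 has weight `≤ 4t < 0`)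
`|J| ≤ 3 #{w ≥ -3t}`, i.e. `b (j/3) ≥ -3 a j` for `p ≤ j < r := #{w < 0}`; and `b i ≥ 2c - α` for `i < p`.
If `r < 3p`: `∑ w⁺ ≥ p(2c-α) ≥ p c + 2p(-α) ≥ ∑ w⁻`. If `r ≥ 3p`: `3 ∑ w⁺ ≥ ∑_{j<r} b⁺(j/3)
≥ 3p(2c-α) + ∑_{3p≤j<r} (-3 a j)` and `∑ w⁻ ≤ p c - 2 p α + ∑_{3p≤j<r} (-a j)`, and `p(2c-α) ≥ pc - 2pα`. -/
def S_FC4 : Prop := ∀ d : Fin 4 → Bool, ∑ i, sg (d i) = 2 → Pos 4 d

end Pool.Agent.W848.N2
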