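import Mathlib
import Pool.Agent.W848.N2.Stm

/-!
# Net length two: assembly (the claim for `k = 2m ≥ 6`)
-/

set_option autoImplicit false

namespace Pool.Agent.W848.N2

open Finset

/-- core: a light set in which all walks exist has few vertices -/
theorem core (hROT : S_ROT) (hDIG : S_DIG) (hQUAD : S_QUAD) (hTOUR : S_TOUR) (hK4 : S_K4)
    (m : ℕ) (hm : 3 ≤ m) (d : Fin (2 * m) → Bool) (hd : ∑ i, sg (d i) = 2)
    (V : Type) [Fintype V] (R : V → V → Prop) (hdeg : Deg R) (w : V → ℝ)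
    (hw : ∀ f : Fin (2 * m) → V, PW R d f → 0 ≤ ∑ i, w (f i))
    (L : Set V) (t q : ℝ) (hLt : ∀ v ∈ L, w v ≤ t) (htq : t ≤ q) (hneg : t + q < 0)
    (hB : ∀ x ∈ L, Back R L w q x) (hF : ∀ v, ∃ y, R v y ∧ w y ≤ q)
    (J : Set V) (hJL : J ⊆ L) (c : ℝ) (hJc : ∀ x ∈ J, w x ≤ c) (g : ℕ)
    (hg : {v | -3 * c - ((m : ℝ) - 3) * t - ((m : ℝ) - 1) * q ≤ w v}.ncard ≤ g)
    (hgJ : 3 * g < J.ncard) : False := by
  obtain ⟨d', hd1, hd2, htr⟩ := hROT (2 * m) (by omega) d hd
  have hw' : ∀ f : Fin (2 * m) → V, PW R d' f → 0 ≤ ∑ i, w (f i) := by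
    intro f' hf'
    obtain ⟨f, hf, hs⟩ := htr V R f' hf'
    rw [← hs w]
    exact hw f hf
  have hD : ∀ x ∈ J, {s | R x s ∧ R s x}.ncard ≤ g := by
    intro x hx
    refine le_trans (Set.ncard_le_ncard ?_ (Set.toFinite _)) hg
    intro s hs
    obtain ⟨f, hf, hfs⟩ := hDIG m hm d' hd1 hd2 V R w L t q hLt htq x s (hJL hx) (hB x (hJL hx))
      (hF x) hs.1 hs.2
    have h1 := hw' f hf
    have h2 := hJc x hx
    show -3 * c - ((m : ℝ) - 3) * t - ((m : ℝ) - 1) * q ≤ w s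
    linarith
  have hne : J.Nonempty := by
    rw [← Set.ncard_pos (Set.toFinite _)]
    omega
  obtain ⟨x, hx⟩ := hne
  obtain ⟨v, hv1, hv2⟩ := hK4 V R hdeg J g ⟨x, hx, hD x hx⟩ (fun x hx _ => hD x hx) hgJ
  obtain ⟨a, b, c', e, h1, h2, h3, h4⟩ := hTOUR V R v hv2
  obtain ⟨f, hf, hfs⟩ := hQUAD m hm d' hd1 hd2 V R w L t q hLt htq hB hF (v a) (v b) (v c') (v e)
    (hJL (hv1 a)) (hJL (hv1 b)) (hJL (hv1 c')) (hJL (hv1 e)) h1 h2 h3 h4
  have h5 := hw' f hf
  have h6 : (0 : ℝ) < m := by exact_mod_cast (by omega : 0 < m)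
  have h7 : (m : ℝ) * (t + q) < 0 := mul_neg_of_pos_of_neg h6 hneg
  linarith

theorem Deg.swap {V : Type} [Fintype V] {R : V → V → Prop} (h : Deg R) : Deg (fun a b => R b a) :=
  ⟨h.2, h.1⟩

/-- image of an initial segment -/
theorem ncard_seg {V : Type} {n : ℕ} (u : Fin n ≃ V) (ℓ : ℕ) (hℓ : ℓ ≤ n) :
    (u '' {i : Fin n | i.val < ℓ}).ncard = ℓ := by
  rw [Set.ncard_image_of_injective _ u.injective]
  have : {i : Fin n | i.val < ℓ} = ((univ.filter fun i : Fin n => i.val < ℓ : Finset (Fin n)) : Set (Fin n)) := by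
    ext i; simp
  rw [this, Set.ncard_coe_finset]
  rw [Fin.card_filter_val_lt]
  exact min_eq_right hℓ

/-- image of a final segment -/
theorem ncard_fin {V : Type} {n : ℕ} (u : Fin n ≃ V) (c : ℕ) (hc : c ≤ n) :
    (u '' {i : Fin n | n - c ≤ i.val}).ncard = c := by
  rw [Set.ncard_image_of_injective _ u.injective]
  have h0 : {i : Fin n | n - c ≤ i.val} = {i : Fin n | i.val < n - c}ᶜ := by
    ext i; simp
  have h1 := ncard_seg (Equiv.refl (Fin n)) (n - c) (by omega)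
  simp only [Equiv.coe_refl, Set.image_id] at h1
  rw [h0, Set.ncard_compl, h1, Nat.card_eq_fintype_card, Fintype.card_fin]
  omega

theorem pos_of (hROT : S_ROT) (hREV : S_REV) (hBACK : S_BACK) (hDIG : S_DIG) (hQUAD : S_QUAD)
    (hTOUR : S_TOUR) (hK4 : S_K4) (hSUM : S_SUM) (m : ℕ) (hm : 3 ≤ m) (d : Fin (2 * m) → Bool)
    (hd : ∑ i, sg (d i) = 2) : Pos (2 * m) d := by
  intro V _ _ R hdeg w hw
  classical
  set n := Fintype.card V with hn
  have hn0 : 0 < n := Fintype.card_pos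
  let e0 : V ≃ Fin n := Fintype.equivFin V
  let g : Fin n → ℝ := fun i => w (e0.symm i)
  let u : Fin n ≃ V := (Tuple.sort g).trans e0.symm
  have hmono : Monotone (fun i => w (u i)) := Tuple.monotone_sort g
  let a : ℕ → ℝ := fun i => if h : i < n then w (u ⟨i, h⟩) else 0
  have ha : ∀ i : Fin n, a i.val = w (u i) := by
    intro i
    simp only [a, dif_pos i.isLt]
  have hsum : ∑ v, w v = ∑ i ∈ range n, a i := by
    rw [Finset.sum_range, ← Equiv.sum_comp u]
    exact Finset.sum_congr rfl fun i _ => (ha i).symm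
  rw [hsum]
  have hamono : ∀ i j, i ≤ j → j < n → a i ≤ a j := by
    intro i j hij hj
    have h1 := ha ⟨i, by omega⟩
    have h2 := ha ⟨j, hj⟩
    simp only at h1 h2
    rw [h1, h2]
    exact hmono (show (⟨i, by omega⟩ : Fin n) ≤ ⟨j, hj⟩ from hij)
  apply hSUM n a m (by exact_mod_cast hm) hamono
  intro ℓ hℓ0 hℓn hneg j hj
  have hℓ : ℓ ≤ n := by omega
  set t := a (ℓ - 1) with ht
  set q := a (n - ℓ) with hq
  have htq : t ≤ q := hamono _ _ (by omega) (by omega)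
  set L : Set V := u '' {i : Fin n | i.val < ℓ} with hL
  have hLcard : L.ncard = ℓ := ncard_seg u ℓ hℓ
  have hLt : ∀ v ∈ L, w v ≤ t := by
    rintro v ⟨i, hi, rfl⟩
    rw [← ha i]
    have : i.val < ℓ := hi
    exact hamono _ _ (by omega) (by omega)
  have hbig : {v | q < w v}.ncard < L.ncard := by
    rw [hLcard]
    have h1 : {v | q < w v} ⊆ u '' {i : Fin n | n - (ℓ - 1) ≤ i.val} := by
      intro v hv
      refine ⟨u.symm v, ?_, by simp⟩
      by_contra hcon
      have h2 : (u.symm v).val < n - (ℓ - 1) := not_le.1 hcon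
      have h3 : a (u.symm v).val ≤ q := hamono _ _ (by omega) (by omega)
      rw [ha (u.symm v), Equiv.apply_symm_apply] at h3
      exact absurd hv (not_lt.2 h3)
    have h4 := Set.ncard_le_ncard h1 (Set.toFinite _)
    rw [ncard_fin u (ℓ - 1) (by omega)] at h4
    omega
  obtain ⟨hF, hF', hBB⟩ := hBACK V R hdeg w L q (fun x hx => (hLt x hx).trans htq)
    (by rw [hLcard]; exact hℓn) hbig
  by_contra hcon
  push Not at hcon
  set J : Set V := u '' {i : Fin n | i.val < j + 1} with hJ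
  have hJcard : J.ncard = j + 1 := ncard_seg u (j + 1) (by omega)
  have hJL : J ⊆ L := by
    rintro v ⟨i, hi, rfl⟩
    have h1 : i.val < j + 1 := hi
    exact ⟨i, show i.val < ℓ by omega, rfl⟩
  have hJc : ∀ x ∈ J, w x ≤ a j := by
    rintro v ⟨i, hi, rfl⟩
    rw [← ha i]
    have : i.val < j + 1 := hi
    exact hamono _ _ (by omega) (by omega)
  have hg : {v | -3 * a j - ((m : ℝ) - 3) * t - ((m : ℝ) - 1) * q ≤ w v}.ncard ≤ j / 3 := by
    have h1 : {v | -3 * a j - ((m : ℝ) - 3) * t - ((m : ℝ) - 1) * q ≤ w v} ⊆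
        u '' {i : Fin n | n - j / 3 ≤ i.val} := by
      intro v hv
      refine ⟨u.symm v, ?_, by simp⟩
      by_contra hcon2
      have h2 : (u.symm v).val < n - j / 3 := not_le.1 hcon2
      have h3 : a (u.symm v).val ≤ a (n - 1 - j / 3) := hamono _ _ (by omega) (by omega)
      rw [ha (u.symm v), Equiv.apply_symm_apply] at h3
      have h4 : -3 * a j - ((m : ℝ) - 3) * t - ((m : ℝ) - 1) * q ≤ w v := hv
      linarith
    have h4 := Set.ncard_le_ncard h1 (Set.toFinite _)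
    rwa [ncard_fin u (j / 3) (by omega)] at h4
  have hgJ : 3 * (j / 3) < J.ncard := by
    rw [hJcard]
    omega
  rcases hBB with hB | hB
  · exact core hROT hDIG hQUAD hTOUR hK4 m hm d hd V R hdeg w hw L t q hLt htq hneg hB hF J hJL (a j)
      hJc (j / 3) hg hgJ
  · obtain ⟨d', hd', htr⟩ := hREV (2 * m) (by omega) d
    have hw' : ∀ f : Fin (2 * m) → V, PW (fun a b => R b a) d' f → 0 ≤ ∑ i, w (f i) := by
      intro f' hf'
      obtain ⟨f, hf, hs⟩ := htr V R f' hf'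
      rw [← hs w]
      exact hw f hf
    exact core hROT hDIG hQUAD hTOUR hK4 m hm d' (hd'.trans hd) V (fun a b => R b a) hdeg.swap w hw'
      L t q hLt htq hneg hB hF' J hJL (a j) hJc (j / 3) hg hgJ

end Pool.Agent.W848.N2
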