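import Mathlib
import Pool.Agent.W848.N2.Stm
import Pool.Agent.W163.CF.Net

/-!
# From `Pos` to the fractional claim `FC` of W163, and net length `-2`
-/

set_option autoImplicit false

namespace Pool.Agent.W848.N2

open Finset

theorem exists_pos_lb {ι : Type} [Fintype ι] (p : ι → Prop) (g : ι → ℝ) (h : ∀ i, p i → 0 < g i) :
    ∃ δ : ℝ, 0 < δ ∧ ∀ i, p i → δ ≤ g i := by
  classical
  by_cases hne : (univ.filter p).Nonempty
  · obtain ⟨i0, hi0, hmin⟩ := Finset.exists_min_image (univ.filter p) g hne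
    have hp : p i0 := (Finset.mem_filter.1 hi0).2
    exact ⟨g i0, h i0 hp, fun i hi => hmin i (Finset.mem_filter.2 ⟨Finset.mem_univ _, hi⟩)⟩
  · refine ⟨1, one_pos, fun i hi => ?_⟩
    exact absurd ⟨i, Finset.mem_filter.2 ⟨Finset.mem_univ _, hi⟩⟩ hne

theorem FC_of_Pos {k : ℕ} (hk : 0 < k) (d : Fin k → Bool) (h : Pos k d) : Pool.Agent.W163.CF.FC k d := by
  intro α _ _ R h1 h2 y hy
  by_contra hcon
  push Not at hcon
  set S : ℝ := ∑ a, y a with hS
  set N : ℝ := (Fintype.card α : ℝ) with hN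
  have hNpos : 0 < N := by
    rw [hN]
    exact_mod_cast Fintype.card_pos
  have hkpos : (0 : ℝ) < k := by exact_mod_cast hk
  obtain ⟨δ, hδ, hδ'⟩ := exists_pos_lb (fun f : Fin k → α => Pool.Agent.W163.CF.PW R d f)
    (fun f => N * ∑ i, y (f i) - k * S) (fun f hf => sub_pos.2 (hcon f hf))
  have h3 := h α R ⟨h1, h2⟩ (fun v => N * y v - S - δ / k) (by
    intro f hf
    have h4 := hδ' f hf
    rw [Finset.sum_sub_distrib, Finset.sum_sub_distrib, ← Finset.mul_sum, Finset.sum_const,
      Finset.sum_const, Finset.card_univ, Fintype.card_fin, nsmul_eq_mul, nsmul_eq_mul]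
    have h5 : (k : ℝ) * (δ / k) = δ := by field_simp
    rw [h5]
    linarith)
  rw [Finset.sum_sub_distrib, Finset.sum_sub_distrib, ← Finset.mul_sum, Finset.sum_const,
      Finset.sum_const, Finset.card_univ, nsmul_eq_mul, nsmul_eq_mul, ← hN, ← hS] at h3
  have h6 : 0 < N * (δ / k) := by positivity
  linarith

/-- converse relation and complemented word -/
theorem FC_compl {k : ℕ} (d : Fin k → Bool) (h : Pool.Agent.W163.CF.FC k (fun i => !(d i))) :
    Pool.Agent.W163.CF.FC k d := by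
  intro α _ _ R h1 h2 y hy
  obtain ⟨f, hf, hfs⟩ := h α (fun a b => R b a) h2 h1 y hy
  refine ⟨f, ?_, hfs⟩
  intro i j hij
  obtain ⟨h3, h4⟩ := hf i j hij
  constructor
  · intro hd
    exact h4 (by simp [hd])
  · intro hd
    exact h3 (by simp [hd])

theorem sum_compl {k : ℕ} (d : Fin k → Bool) : ∑ i, sg (!(d i)) = - ∑ i, sg (d i) := by
  rw [← Finset.sum_neg_distrib]
  apply Finset.sum_congr rfl
  intro i _
  cases d i <;> simp [sg]

end Pool.Agent.W848.N2
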