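import Mathlib
import Pool.Agent.W848.N2.Asm
import Pool.Agent.W848.N2.Conv
import Pool.Agent.W163.CF.Dir6
import Pool.Agent.W163.CF.All
import Pool.Agent.W991.CFTL
import Pool.Agent.W52.CF.ZT

/-!
# Factors of oriented even cycles: all orientations
-/

set_option autoImplicit false

namespace Pool.Agent.W848.N2

open Finset

theorem net_even {k : ℕ} (hk : Even k) (d : Fin k → Bool) :
    (2 : ℤ) ∣ ∑ i, Pool.Agent.W163.CF.sgn (d i) := by
  have h1 : ∀ b : Bool, Pool.Agent.W163.CF.sgn b = 1 - 2 * (if b then 0 else 1) := by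
    intro b
    cases b <;> simp [Pool.Agent.W163.CF.sgn]
  have h2 : ∑ i, Pool.Agent.W163.CF.sgn (d i) = k - 2 * ∑ i, (if d i then (0 : ℤ) else 1) := by
    rw [Finset.sum_congr rfl (fun i _ => h1 (d i)), Finset.sum_sub_distrib, ← Finset.mul_sum]
    simp
  rw [h2]
  have h3 : (2 : ℤ) ∣ (k : ℤ) := by exact_mod_cast hk.two_dvd
  exact dvd_sub h3 (dvd_mul_right _ _)

/-- every word of even length `≥ 4` with net length 2 -/
theorem FC_two (h2 : S_FC4)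
    (h3 : ∀ m : ℕ, 3 ≤ m → ∀ d : Fin (2 * m) → Bool, ∑ i, sg (d i) = 2 → Pos (2 * m) d)
    (m : ℕ) (hm : 2 ≤ m) (d : Fin (2 * m) → Bool) (hd : ∑ i, sg (d i) = 2) :
    Pool.Agent.W163.CF.FC (2 * m) d := by
  apply FC_of_Pos (by omega)
  rcases Nat.lt_or_ge 2 m with h | h
  · exact h3 m h d hd
  · obtain rfl : m = 2 := le_antisymm h hm
    exact h2 d hd

theorem FC_all (h2 : S_FC4)
    (h3 : ∀ m : ℕ, 3 ≤ m → ∀ d : Fin (2 * m) → Bool, ∑ i, sg (d i) = 2 → Pos (2 * m) d)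
    (m : ℕ) (hm : 2 ≤ m) (d : Fin (2 * m) → Bool) : Pool.Agent.W163.CF.FC (2 * m) d := by
  by_cases hA : ∑ i, sg (d i) = 2
  · exact FC_two h2 h3 m hm d hA
  by_cases hB : ∑ i, sg (d i) = -2
  · apply FC_compl
    apply FC_two h2 h3 m hm
    rw [sum_compl, hB]
    norm_num
  exact Pool.Agent.W163.CF.FC_net_ne2 Pool.Agent.W991.CFTL.t_TL Pool.Agent.W52.CF.t_ZT
    Pool.Agent.W163.CF.t_S1 d (net_even (even_two_mul m) d) hA hB

/-- the frozen statement from the two net length 2 claims -/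
theorem main_of (h2 : S_FC4)
    (h3 : ∀ m : ℕ, 3 ≤ m → ∀ d : Fin (2 * m) → Bool, ∑ i, sg (d i) = 2 → Pos (2 * m) d) :
    ∀ m : ℕ, 2 ≤ m → ∀ d : Fin (2 * m) → Bool, ∀ η : ℝ, 0 < η →
      ∃ n0 : ℕ, ∀ n : ℕ, n0 ≤ n → 2 * m ∣ n →
        ∀ G : Digraph (Fin n),
          (∀ v : Fin n,
            ((1 : ℝ) / 2 + η) * (n : ℝ) ≤ (({w : Fin n | w ≠ v ∧ G.Adj v w}.ncard : ℕ) : ℝ) ∧
            ((1 : ℝ) / 2 + η) * (n : ℝ) ≤ (({w : Fin n | w ≠ v ∧ G.Adj w v}.ncard : ℕ) : ℝ)) →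
          ∃ e : Fin (n / (2 * m)) × Fin (2 * m) ≃ Fin n,
            ∀ j : Fin (n / (2 * m)), ∀ i i' : Fin (2 * m),
              i'.val = (i.val + 1) % (2 * m) →
                (d i = true → G.Adj (e (j, i)) (e (j, i'))) ∧
                (d i = false → G.Adj (e (j, i')) (e (j, i))) := by
  intro m hm d η hη
  obtain ⟨n0, hn0⟩ := Pool.Agent.W163.CF.t_S11 (2 * m) d (by omega) (FC_all h2 h3 m hm d) η hη
  refine ⟨n0, fun n hn hkn G hG => ?_⟩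
  obtain ⟨e, he⟩ := hn0 n hn hkn (Pool.Agent.W163.CF.RG G) (Pool.Agent.W163.CF.Big_of G η hG)
  refine ⟨e, fun j i i' hi => ?_⟩
  obtain ⟨h1, h2⟩ := he j i i' hi
  exact ⟨fun h => (h1 h).2, fun h => (h2 h).2⟩

end Pool.Agent.W848.N2
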